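import Mathlib
import Pool.Agent.H32.SpecChk

namespace Pool.Agent.Results.MP_a5282b_co.Exists
open Finset Matrix

open Classical in
/-- the adjacency operator of `G` on `ℝ^n` -/
noncomputable def adjOp {n : ℕ} (G : SimpleGraph (Fin n)) : Module.End ℝ (Fin n → ℝ) :=
  Matrix.toLin' (G.adjMatrix ℝ)

/-- `G` is `θ`-spectral: for a basis `u` of the `θ`-eigenspace, the rows `v i = (u j i)_j` are
distinct vertices of their convex hull `P`, and `[v i, v k]` is a face of `P` iff `ik` is an edge. -/
def Spectral {n : ℕ} (G : SimpleGraph (Fin n)) (θ : ℝ) : Prop :=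
  ∃ (d : ℕ) (u : Fin d → Fin n → ℝ), LinearIndependent ℝ u ∧
    Submodule.span ℝ (Set.range u) = (adjOp G).eigenspace θ ∧
    Function.Injective (fun i j => u j i) ∧
    (∀ i, IsExposed ℝ (convexHull ℝ (Set.range fun i j => u j i)) {fun j => u j i}) ∧
    ∀ i k, i ≠ k → (G.Adj i k ↔ IsExposed ℝ (convexHull ℝ (Set.range fun i j => u j i))
      (segment ℝ (fun j => u j i) (fun j => u j k)))

lemma exposed_seg {ι : Type} {d : ℕ} (v : ι → Fin d → ℝ) (l : (Fin d → ℝ) →L[ℝ] ℝ) (x y : ι) (M : ℝ)
    (hx : l (v x) = M) (hy : l (v y) = M) (h : ∀ z, z ≠ x → z ≠ y → l (v z) < M) :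
    IsExposed ℝ (convexHull ℝ (Set.range v)) (segment ℝ (v x) (v y)) := by
  intro _
  have hseg : ∀ p ∈ segment ℝ (v x) (v y), l p = M := by
    rintro p ⟨a, b, _, _, hab, rfl⟩
    rw [map_add, map_smul, map_smul, hx, hy, smul_eq_mul, smul_eq_mul, ← add_mul, hab, one_mul]
  have hT : convexHull ℝ (Set.range v) ⊆ {p | l p < M ∨ p ∈ segment ℝ (v x) (v y)} := by
    apply convexHull_min
    · rintro _ ⟨z, rfl⟩
      by_cases h1 : z = x
      · right; rw [h1]; exact left_mem_segment _ _ _
      · by_cases h2 : z = y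
        · right; rw [h2]; exact right_mem_segment _ _ _
        · exact Or.inl (h z h1 h2)
    · intro p hp q hq a b ha hb hab
      have lp : l p ≤ M := hp.elim le_of_lt fun h => (hseg p h).le
      have lq : l q ≤ M := hq.elim le_of_lt fun h => (hseg q h).le
      have e : l (a • p + b • q) = a * l p + b * l q := by simp
      have eM : M = a * M + b * M := by rw [← add_mul, hab, one_mul]
      rcases ha.eq_or_lt with rfl | ha'
      · rw [zero_add] at hab; subst hab; simpa using hq
      rcases hb.eq_or_lt with rfl | hb'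
      · rw [add_zero] at hab; subst hab; simpa using hp
      rcases hp with hp | hp
      · left; show l _ < M; rw [e, eM]; nlinarith
      rcases hq with hq | hq
      · left; show l _ < M; rw [e, eM]; nlinarith
      exact Or.inr (convex_segment _ _ hp hq ha hb hab)
  have hsub : segment ℝ (v x) (v y) ⊆ convexHull ℝ (Set.range v) :=
    (convex_convexHull ℝ _).segment_subset (subset_convexHull ℝ _ ⟨x, rfl⟩)
      (subset_convexHull ℝ _ ⟨y, rfl⟩)
  refine ⟨l, Set.ext fun p => ⟨fun hp => ⟨hsub hp, fun q hq => ?_⟩, fun hp => ?_⟩⟩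
  · rw [hseg p hp]
    exact (hT hq).elim le_of_lt fun h => (hseg q h).le
  · refine (hT hp.1).resolve_left fun hlt => ?_
    have := hp.2 (v x) (subset_convexHull ℝ _ ⟨x, rfl⟩)
    rw [hx] at this
    exact absurd hlt (not_lt.2 this)

open Pool.Agent.H32.Spec

def G0 : SimpleGraph (Fin 64) where
  Adj x y := adjB x y = true
  symm := ⟨fun x y h => by rwa [adj_symm y y.2 x x.2]⟩
  loopless := ⟨fun x h => by rw [adj_self x x.2] at h; exact absurd h (by simp)⟩

noncomputable def X (c x : Fin 64) : ℝ := (chi c x : ℤ)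

lemma mem64 (x : Fin 64) : x.val ∈ R64 := List.mem_range.2 x.2

lemma adjOp_apply (f : Fin 64 → ℝ) (x : Fin 64) :
    adjOp G0 f x = ∑ y : Fin 64, if adjB x y = true then f y else 0 := by
  simp only [adjOp, Matrix.toLin'_apply, Matrix.mulVec, dotProduct, SimpleGraph.adjMatrix_apply]
  refine sum_congr rfl fun y _ => ?_
  by_cases h : adjB x y = true
  · rw [if_pos h, if_pos (show G0.Adj x y from h), one_mul]
  · rw [if_neg h, if_neg (show ¬ G0.Adj x y from h), zero_mul]

lemma eig (c : Fin 64) : adjOp G0 (X c) = (lam c : ℝ) • X c := by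
  ext x
  have h := List.all_eq_true.1 (c1_ok x x.2) c (mem64 c)
  rw [beq_iff_eq, sumTo_eq, ← Fin.sum_univ_eq_sum_range (fun y => bif adjB x y then chi c y else 0)] at h
  have h2 := congrArg (Int.cast : ℤ → ℝ) h
  rw [adjOp_apply]
  push_cast at h2
  simp only [X, Pi.smul_apply, smul_eq_mul, ← h2]
  refine sum_congr rfl fun y _ => ?_
  cases adjB x y <;> simp

lemma orth (x y : Fin 64) : ∑ c, X c x * X c y = if x = y then 64 else 0 := by
  have h := List.all_eq_true.1 (c2_ok x x.2) y (mem64 y)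
  rw [beq_iff_eq, sumTo_eq, ← Fin.sum_univ_eq_sum_range (fun c => chi c x * chi c y)] at h
  have h2 := congrArg (Int.cast : ℤ → ℝ) h
  push_cast at h2
  simp only [X, h2]
  by_cases e : x = y
  · subst e; simp
  · have : Nat.beq x y = false := Bool.eq_false_iff.2 fun h => e (Fin.ext (Nat.eq_of_beq_eq_true h))
    simp [this, e]

lemma X_symm (x y : Fin 64) : X x y = X y x := by simp only [X, chi_symm x x.2 y y.2]

lemma orth' (c c' : Fin 64) : ∑ x, X c x * X c' x = if c = c' then 64 else 0 := by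
  rw [← orth]; exact sum_congr rfl fun x _ => by rw [X_symm c, X_symm c']

lemma X_ne (c : Fin 64) : X c ≠ 0 := by
  intro h
  have := orth' c c
  simp [h] at this

lemma hasEig (c : Fin 64) : (adjOp G0).HasEigenvalue (lam c : ℝ) :=
  Module.End.hasEigenvalue_of_hasEigenvector ⟨Module.End.mem_eigenspace_iff.2 (eig c), X_ne c⟩

noncomputable def u (j : Fin 12) : Fin 64 → ℝ := X (cs j)

lemma u_li : LinearIndependent ℝ u := by
  rw [Fintype.linearIndependent_iff]
  intro g hg i
  have h : ∑ x, (∑ j, g j • u j) x * X (cs i) x = 0 := by rw [hg]; simp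
  simp only [Finset.sum_apply, Pi.smul_apply, smul_eq_mul, u, Finset.sum_mul] at h
  rw [sum_comm] at h
  simp only [mul_assoc, ← Finset.mul_sum, orth'] at h
  rw [sum_eq_single i (fun j _ hj => by rw [if_neg fun e => hj (cs_inj _ _ e), mul_zero])
    (by simp)] at h
  simpa using h

lemma self_adj (f g : Fin 64 → ℝ) : ∑ x, adjOp G0 f x * g x = ∑ x, f x * adjOp G0 g x := by
  simp only [adjOp_apply, Finset.sum_mul, Finset.mul_sum]
  rw [sum_comm]
  refine sum_congr rfl fun x _ => sum_congr rfl fun y _ => ?_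
  rw [adj_symm y y.2 x x.2]
  split_ifs <;> simp

lemma u_span : Submodule.span ℝ (Set.range u) = (adjOp G0).eigenspace 5 := by
  apply le_antisymm
  · rw [Submodule.span_le]
    rintro _ ⟨j, rfl⟩
    have := eig (cs j)
    rw [(lam_five _).2 ⟨j, rfl⟩] at this
    exact Module.End.mem_eigenspace_iff.2 (by simpa [u] using this)
  · intro f hf
    have hf := Module.End.mem_eigenspace_iff.1 hf
    have inv : f = ∑ c, ((∑ x, f x * X c x) / 64) • X c := by
      ext y
      simp only [Finset.sum_apply, Pi.smul_apply, smul_eq_mul, div_mul_eq_mul_div, Finset.sum_mul]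
      rw [← Finset.sum_div, sum_comm]
      simp only [mul_assoc, ← Finset.mul_sum, orth]
      simp
    rw [inv]
    refine Submodule.sum_mem _ fun c _ => ?_
    by_cases h : lam c = 5
    · obtain ⟨j, rfl⟩ := (lam_five c).1 h
      exact Submodule.smul_mem _ _ (Submodule.subset_span ⟨j, rfl⟩)
    · have h1 := self_adj f (X c)
      rw [hf, eig] at h1
      simp only [Pi.smul_apply, smul_eq_mul, mul_assoc, mul_left_comm (f _), ← Finset.mul_sum] at h1
      have h2 : (lam c : ℝ) ≠ 5 := by exact_mod_cast h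
      have : ∑ x, f x * X c x = 0 := by
        by_contra hne
        exact h2 (mul_right_cancel₀ hne h1).symm
      rw [this]; simp

noncomputable def v (i : Fin 64) : Fin 12 → ℝ := fun j => u j i

noncomputable def L (x : Fin 64) : (Fin 12 → ℝ) →L[ℝ] ℝ :=
  ∑ j, (v x j) • ContinuousLinearMap.proj (R := ℝ) (φ := fun _ : Fin 12 => ℝ) j

lemma L_v (x y : Fin 64) : L x (v y) = 12 - 2 * (wt (Nat.xor x y) : ℝ) := by
  have h := List.all_eq_true.1 (List.all_eq_true.1 c4_ok x (mem64 x)) y (mem64 y)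
  rw [beq_iff_eq] at h
  have h2 := congrArg (Int.cast : ℤ → ℝ) h
  push_cast at h2
  rw [← h2]
  simp [L, v, u, X, csL, cs, Fin.sum_univ_succ]

lemma L_self (x : Fin 64) : L x (v x) = 12 := by rw [L_v, wt_self x x.2]; simp

lemma L_lt {x y : Fin 64} (h : x ≠ y) : L x (v y) < 12 := by
  have : (0 : ℝ) < wt (Nat.xor x y) := by exact_mod_cast wt_pos x x.2 y y.2 (Fin.val_ne_of_ne h)
  rw [L_v]; linarith

lemma edge {x y : Fin 64} (h : G0.Adj x y) :
    IsExposed ℝ (convexHull ℝ (Set.range v)) (segment ℝ (v x) (v y)) := by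
  have hc : Nat.xor y x = Nat.xor x y := Nat.xor_comm _ _
  refine exposed_seg v (L x + L y) x y (24 - 2 * (wt (Nat.xor x y) : ℝ)) ?_ ?_ ?_
  · rw [_root_.add_apply, L_self, L_v, hc]; ring
  · rw [_root_.add_apply, L_self, L_v]; ring
  · intro z h1 h2
    have k := List.all_eq_true.1 (c3_ok x x.2) y (mem64 y)
    have h' : adjB x y = true := h
    simp only [h', Bool.not_true, Bool.false_or, List.all_eq_true, Bool.or_eq_true, Nat.beq_eq,
      Nat.blt_eq] at k
    have k := (k z (mem64 z)).resolve_left (by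
      rintro (e | e)
      · exact h1 (Fin.ext e)
      · exact h2 (Fin.ext e))
    have k' : (wt (Nat.xor x y) : ℝ) < wt (Nat.xor x z) + wt (Nat.xor y z) := by exact_mod_cast k
    rw [_root_.add_apply, L_v, L_v]
    linarith

lemma nonedge {x y : Fin 64} (hne : x ≠ y) (h : ¬ G0.Adj x y) :
    ¬ IsExposed ℝ (convexHull ℝ (Set.range v)) (segment ℝ (v x) (v y)) := by
  intro hE
  have k := List.all_eq_true.1 (List.all_eq_true.1 c5_ok x (mem64 x)) y (mem64 y)
  have h' : adjB x y = false := Bool.eq_false_iff.2 h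
  have h'' : Nat.beq x y = false :=
    Bool.eq_false_iff.2 fun e => hne (Fin.ext (Nat.eq_of_beq_eq_true e))
  simp only [h', h'', Bool.false_or, Bool.and_eq_true, Nat.blt_eq, Bool.not_eq_true',
    List.all_eq_true, beq_iff_eq] at k
  obtain ⟨⟨⟨⟨k1, k2⟩, k3⟩, k4⟩, k5⟩ := k
  let z : Fin 64 := ⟨zz x y, k1⟩
  let w : Fin 64 := ⟨zw x y, k2⟩
  have zx : z ≠ x := fun e => by
    have : zz x y = x := congrArg Fin.val e
    rw [this] at k3; simp at k3
  have zy : z ≠ y := fun e => by
    have : zz x y = y := congrArg Fin.val e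
    rw [this] at k4; simp at k4
  have hs : v z + v w = v x + v y := by
    ext j
    have := k5 (cs j) (by revert j; decide)
    have h2 := congrArg (Int.cast : ℤ → ℝ) this
    push_cast at h2
    exact h2
  have hm : (1 / 2 : ℝ) • v z + (1 / 2 : ℝ) • v w ∈ segment ℝ (v x) (v y) :=
    ⟨1 / 2, 1 / 2, by norm_num, by norm_num, by norm_num, by rw [← smul_add, ← smul_add, hs]⟩
  have hz := hE.isExtreme.left_mem_of_mem_openSegment (subset_convexHull ℝ _ ⟨z, rfl⟩)
    (subset_convexHull ℝ _ ⟨w, rfl⟩) hm ⟨1 / 2, 1 / 2, by norm_num, by norm_num, by norm_num, rfl⟩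
  obtain ⟨a, b, ha, hb, hab, e⟩ := hz
  have e2 := congrArg (L z) e
  rw [map_add, map_smul, map_smul, L_self, smul_eq_mul, smul_eq_mul] at e2
  have l1 := L_lt zx
  have l2 := L_lt zy
  rcases ha.eq_or_lt with rfl | ha'
  · rw [zero_add] at hab; subst hab; linarith
  · nlinarith

theorem result : ∃ (n : ℕ) (G : SimpleGraph (Fin n)) (θ θ' θ'' : ℝ), 2 ≤ n ∧
    (adjOp G).HasEigenvalue θ ∧ (adjOp G).HasEigenvalue θ' ∧ (adjOp G).HasEigenvalue θ'' ∧
    θ < θ' ∧ θ' < θ'' ∧ Spectral G θ := by
  refine ⟨64, G0, 5, 7, 47, by norm_num, ?_, ?_, ?_, by norm_num, by norm_num, 12, u, u_li, u_span,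
    ?_, ?_, ?_⟩
  · have := hasEig 2
    rwa [show lam (2 : Fin 64) = 5 by decide, Int.cast_ofNat] at this
  · have := hasEig 49
    rwa [show lam (49 : Fin 64) = 7 by decide, Int.cast_ofNat] at this
  · have := hasEig 0
    rwa [show lam (0 : Fin 64) = 47 by decide, Int.cast_ofNat] at this
  · intro x y h
    by_contra hne
    have h1 := L_lt hne
    have h2 : v x = v y := h
    rw [← h2, L_self] at h1
    exact lt_irrefl _ h1
  · intro x
    have := exposed_seg v (L x) x x 12 (L_self x) (L_self x) fun z h _ => L_lt (Ne.symm h)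
    rwa [segment_same] at this
  · intro x y hne
    exact ⟨edge, fun h => by_contra fun h' => nonedge hne h' h⟩

end Pool.Agent.Results.MP_a5282b_co.Exists
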